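import Pool.Agent.J6H49.AM.Fool

/-!
# One stage: several machines
-/

set_option autoImplicit false

namespace Pool.Agent.J6H20.IA

open Filter Pool.Agent.NPC Pool.Agent.H628R3.RO Pool.Agent.J6H54.RO Pool.Agent.J6H49.OP
open Pool.Agent.J6H49.AM
open Pool.Agent.TH678.RS (bt)
open Pool.Agent.Y626.WX (Cp)
open Pool.Agent.J6H49.PHC (oracle)

/-- the `Σ₂` machine accepts the string of `n` ones -/
def AccS (M : Alg) (p : Polynomial ℕ) (B : Oracle) (n : ℕ) : Prop :=
  ∃ u : List Bool, u.length ≤ p.eval n ∧ ∀ w : List Bool, w.length ≤ p.eval n →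
    M.out B (pairBits (List.replicate n true) (pairBits u w)) = some [true]

/-- the `MA` machine accepts the string of `n` ones -/
def AccM (M : Alg) (p : Polynomial ℕ) (B : Oracle) (n : ℕ) : Prop :=
  ∃ y : List Bool, y.length ≤ p.eval n ∧ 2 / 3 ≤ pr (p.eval n) fun r =>
    M.out B (pairBits (List.replicate n true) (pairBits y r)) = some [true]

/-- the `MA` machine does not reject the string of `n` ones -/
def AccW (M : Alg) (p : Polynomial ℕ) (B : Oracle) (n : ℕ) : Prop :=
  ∃ y : List Bool, y.length ≤ p.eval n ∧ 1 / 3 < pr (p.eval n) fun r =>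
    M.out B (pairBits (List.replicate n true) (pairBits y r)) = some [true]

theorem pigeon2 {α β : Type} [DecidableEq β] (G : Finset α) (hG : G.Nonempty)
    (u : α → β) (T : Finset β) (hT : ∀ a ∈ G, u a ∈ T) :
    ∃ b ∈ T, (G.filter fun a => u a = b).Nonempty ∧
      G.card ≤ T.card * (G.filter fun a => u a = b).card := by
  obtain ⟨b, hb, h⟩ : ∃ b ∈ T, G.card ≤ T.card * (G.filter fun a => u a = b).card := by
    by_contra hcon
    push Not at hcon
    obtain ⟨a₀, ha₀⟩ := hG
    have hne : T.Nonempty := ⟨u a₀, hT _ ha₀⟩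
    have h1 : G.card = ∑ b ∈ T, (G.filter fun a => u a = b).card :=
      Finset.card_eq_sum_card_fiberwise fun a ha => hT a ha
    have h2 : T.card * G.card < T.card * G.card := by
      calc T.card * G.card = ∑ b ∈ T, T.card * (G.filter fun a => u a = b).card := by
            rw [← Finset.mul_sum, ← h1]
        _ < ∑ _b ∈ T, G.card := Finset.sum_lt_sum_of_nonempty hne hcon
        _ = T.card * G.card := by rw [Finset.sum_const, smul_eq_mul]
    exact lt_irrefl _ h2
  refine ⟨b, hb, ?_, h⟩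
  rw [← Finset.card_pos]
  have h3 : 0 < G.card := Finset.card_pos.2 hG
  by_contra hcon
  have h4 : (G.filter fun a => u a = b).card = 0 := by omega
  rw [h4] at h
  omega

variable {α : ℕ → ℕ} {g : ℕ → Pool.Agent.H620R2.Gauge.SAlg × Polynomial ℕ}
  {S : ℕ → Polynomial ℕ} {Φ : Oracle → Oracle}

/-- the common part: a restored set of functions with the same message -/
theorem common2 {M : Alg} {p : Polynomial ℕ} {n k : ℕ} (hfine : FineAt α M p n)
    (hadv : 3 * (p.eval n + 1 + k) ≤ 2 ^ n) (Pr : (Blk n → Blk n) → List Bool → Prop)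
    (G : Finset (Blk n → Blk n)) (hG : G.Nonempty)
    (hGc : Fintype.card (Blk n → Blk n) ≤ 2 ^ k * G.card)
    (h : ∀ f ∈ G, ∃ u : List Bool, u.length ≤ p.eval n ∧ Pr f u) :
    ∃ (u : List Bool) (F : Finset (Blk n → Blk n)) (T : Finset (Blk n)) (f₀ : Blk n → Blk n),
      u.length ≤ p.eval n ∧ F.Nonempty ∧ (∀ f ∈ F, Pr f u) ∧ 3 * T.card ≤ 2 ^ n ∧
      (∀ f ∈ F, ∀ ρ ∈ T, f ρ = f₀ ρ) ∧
      ∀ ρ ∉ T, ∀ y, (4 * M.p.eval (inpL p n) + 4) * (F.filter fun f => f ρ = y).card ≤
        F.card := by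
  classical
  choose! u hu1 hu2 using h
  obtain ⟨b, -, hb1, hb2⟩ := pigeon2 G hG u (strs (p.eval n)).toFinset (fun f hf => by
    rw [List.mem_toFinset, mem_strs]
    exact hu1 f hf)
  set F₀ := G.filter fun f => u f = b with hF₀
  have hcard : Fintype.card (Blk n) = 2 ^ n := by
    rw [Fintype.card_fun, Fintype.card_bool, Fintype.card_fin]
  obtain ⟨F, T, h1, h2, h3, h4, h5⟩ := restore (R := Blk n) (Y := Blk n)
    (4 * M.p.eval (inpL p n) + 4) (by rw [hcard]; exact hfine.few) (by omega)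
    (p.eval n + 1 + k) F₀ ∅ hb1 (by simp) (by
      rw [Finset.card_empty, Nat.sub_zero]
      rw [Fintype.card_fun] at hGc
      have h6 : (strs (p.eval n)).toFinset.card * F₀.card ≤ 2 ^ (p.eval n + 1) * F₀.card :=
        Nat.mul_le_mul_right _ (card_strs _)
      calc _ ≤ 2 ^ k * G.card := hGc
        _ ≤ 2 ^ k * (2 ^ (p.eval n + 1) * F₀.card) := Nat.mul_le_mul_left _ (hb2.trans h6)
        _ = _ := by rw [pow_add]; ring)
  obtain ⟨f₀, hf₀⟩ := h2
  have hu : u f₀ = b := (Finset.mem_filter.1 (h1 hf₀)).2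
  refine ⟨b, F, T, f₀, ?_, ⟨f₀, hf₀⟩, fun f hf => ?_, ?_, fun f hf ρ hρ => h4 f hf f₀ hf₀ ρ hρ,
    h5⟩
  · rw [← hu]
    exact hu1 f₀ (Finset.mem_filter.1 (h1 hf₀)).1
  · have h6 := Finset.mem_filter.1 (h1 hf)
    rw [← h6.2]
    exact hu2 f h6.1
  · rw [Finset.card_empty, zero_add] at h3
    omega

theorem dense_sigma (hc : Cp g S (bt α) Φ) (E₀ A : Oracle) {M : Alg} {p : Polynomial ℕ}
    {n k : ℕ} (hfine : FineAt α M p n) (hadv : 3 * (p.eval n + 1 + k) ≤ 2 ^ n)
    (G : Finset (Blk n → Blk n)) (hG : G.Nonempty)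
    (hGc : Fintype.card (Blk n → Blk n) ≤ 2 ^ k * G.card)
    (h : ∀ f ∈ G, AccS M p (oracle Φ E₀ (win n (fun ρ => some (f ρ)) A)) n) :
    ∃ f : Blk n → Option (Blk n), Few n (win n f A) ∧
      AccS M p (oracle Φ E₀ (win n f A)) n := by
  classical
  obtain ⟨u, F, T, f₀, hu, hF, hPr, hT, hag, hr⟩ := common2 hfine hadv
    (fun f u => ∀ w : List Bool, w.length ≤ p.eval n →
      M.out (oracle Φ E₀ (win n (fun ρ => some (f ρ)) A))
        (pairBits (List.replicate n true) (pairBits u w)) = some [true]) G hG hGc h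
  have hfew : Few n (win n (spw T f₀) A) := few_win (S := T) (fun ρ hρ => by
    unfold spw
    rw [if_neg hρ]) hT A
  refine ⟨spw T f₀, hfew, u, hu, fun w hw => ?_⟩
  have h1 := most_agree hc E₀ A hfine hag hr (z := pairBits (List.replicate n true)
    (pairBits u w)) (length_inp hu hw)
  obtain ⟨f, hfF, hf⟩ : ∃ f ∈ F, M.out (oracle Φ E₀ (win n (fun ρ => some (f ρ)) A))
      (pairBits (List.replicate n true) (pairBits u w)) =
      M.out (oracle Φ E₀ (win n (spw T f₀) A))
        (pairBits (List.replicate n true) (pairBits u w)) := by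
    by_contra h2
    push Not at h2
    rw [Finset.filter_true_of_mem h2] at h1
    have h3 : 0 < F.card := Finset.card_pos.2 hF
    nlinarith
  rw [← hf]
  exact hPr f hfF w hw

theorem dense_ma (hc : Cp g S (bt α) Φ) (E₀ A : Oracle) {M : Alg} {p : Polynomial ℕ}
    {n k : ℕ} (hfine : FineAt α M p n) (hadv : 3 * (p.eval n + 1 + k) ≤ 2 ^ n)
    (G : Finset (Blk n → Blk n)) (hG : G.Nonempty)
    (hGc : Fintype.card (Blk n → Blk n) ≤ 2 ^ k * G.card)
    (h : ∀ f ∈ G, AccM M p (oracle Φ E₀ (win n (fun ρ => some (f ρ)) A)) n) :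
    ∃ f : Blk n → Option (Blk n), Few n (win n f A) ∧
      AccW M p (oracle Φ E₀ (win n f A)) n := by
  classical
  obtain ⟨u, F, T, f₀, hu, hF, hPr, hT, hag, hr⟩ := common2 hfine hadv
    (fun f u => 2 / 3 ≤ pr (p.eval n) fun r =>
      M.out (oracle Φ E₀ (win n (fun ρ => some (f ρ)) A))
        (pairBits (List.replicate n true) (pairBits u r)) = some [true]) G hG hGc h
  have hfew : Few n (win n (spw T f₀) A) := few_win (S := T) (fun ρ hρ => by
    unfold spw
    rw [if_neg hρ]) hT A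
  refine ⟨spw T f₀, hfew, u, hu, ?_⟩
  by_contra h1
  rw [not_lt] at h1
  set m := p.eval n with hm
  set inp : Blk m → List Bool := fun v => pairBits (List.replicate n true)
    (pairBits u (List.ofFn v)) with hinp
  set acc : (Blk n → Blk n) → Blk m → Prop := fun f v =>
    M.out (oracle Φ E₀ (win n (fun ρ => some (f ρ)) A)) (inp v) = some [true] with hacc
  set accB : Blk m → Prop := fun v =>
    M.out (oracle Φ E₀ (win n (spw T f₀) A)) (inp v) = some [true] with haccB
  have hpos : (0 : ℝ) < 2 ^ m := by positivity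
  have hFpos : (0 : ℝ) < F.card := by
    have := Finset.card_pos.2 hF
    exact_mod_cast this
  have h2 : ∀ f ∈ F, (2 / 3 : ℝ) * 2 ^ m ≤ ((Finset.univ.filter fun v => acc f v).card : ℝ) := by
    intro f hf
    have := hPr f hf
    rw [pr_eq m _ (acc f) (fun v => Iff.rfl), le_div_iff₀ hpos] at this
    exact this
  have h3 : ((Finset.univ.filter fun v => accB v).card : ℝ) ≤ 1 / 3 * 2 ^ m := by
    rw [pr_eq m _ accB (fun v => Iff.rfl), div_le_iff₀ hpos] at h1
    exact h1
  -- double counting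
  have h4 : ∑ f ∈ F, ((Finset.univ.filter fun v => acc f v).card : ℝ) ≤
      ∑ v : Blk m, ((F.filter fun f => acc f v).card : ℝ) := by
    have e : ∑ f ∈ F, (Finset.univ.filter fun v => acc f v).card =
        ∑ v : Blk m, (F.filter fun f => acc f v).card := by
      simp only [Finset.card_filter]
      exact Finset.sum_comm
    exact_mod_cast e.le
  have h5 : ∀ v : Blk m, ((F.filter fun f => acc f v).card : ℝ) ≤
      (if accB v then (F.card : ℝ) else 0) + F.card / 4 := by
    intro v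
    have hz : (inp v).length ≤ inpL p n := length_inp hu (by rw [List.length_ofFn])
    have h6 := most_agree hc E₀ A hfine hag hr hz
    set K := F.filter fun f => M.out (oracle Φ E₀ (win n (fun ρ => some (f ρ)) A)) (inp v) ≠
      M.out (oracle Φ E₀ (win n (spw T f₀) A)) (inp v) with hK
    have h7 : 4 * K.card ≤ F.card := by
      by_contra h8
      push Not at h8
      have h9 : (M.p.eval (inpL p n) + 1) * F.card < (4 * M.p.eval (inpL p n) + 4) * K.card := by
        have : (4 * M.p.eval (inpL p n) + 4) * K.card =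
            (M.p.eval (inpL p n) + 1) * (4 * K.card) := by ring
        rw [this]
        exact Nat.mul_lt_mul_of_pos_left h8 (by omega)
      nlinarith
    have h7' : (K.card : ℝ) ≤ F.card / 4 := by
      have : (4 : ℝ) * K.card ≤ F.card := by exact_mod_cast h7
      linarith
    split_ifs with hB
    · have : ((F.filter fun f => acc f v).card : ℝ) ≤ F.card := by
        exact_mod_cast Finset.card_filter_le _ _
      linarith
    · have h8 : (F.filter fun f => acc f v) ⊆ K := by
        intro f hf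
        rw [Finset.mem_filter] at hf
        rw [hK, Finset.mem_filter]
        refine ⟨hf.1, fun he => hB ?_⟩
        show M.out (oracle Φ E₀ (win n (spw T f₀) A)) (inp v) = some [true]
        rw [← he]
        exact hf.2
      have h9 : ((F.filter fun f => acc f v).card : ℝ) ≤ K.card := by
        exact_mod_cast Finset.card_le_card h8
      linarith
  have h6 : ∑ v : Blk m, ((if accB v then (F.card : ℝ) else 0) + F.card / 4) =
      F.card * ((Finset.univ.filter fun v => accB v).card : ℝ) + 2 ^ m * (F.card / 4) := by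
    rw [Finset.sum_add_distrib, Finset.sum_const, ← Finset.sum_filter, Finset.sum_const,
      Finset.card_univ, Fintype.card_fun, Fintype.card_bool, Fintype.card_fin]
    simp only [nsmul_eq_mul]
    push_cast
    ring
  have h7 : ∑ f ∈ F, ((2 / 3 : ℝ) * 2 ^ m) ≤
      F.card * ((Finset.univ.filter fun v => accB v).card : ℝ) + 2 ^ m * (F.card / 4) := by
    rw [← h6]
    exact (Finset.sum_le_sum h2).trans (h4.trans (Finset.sum_le_sum fun v _ => h5 v))
  rw [Finset.sum_const, nsmul_eq_mul] at h7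
  have h8 : (F.card : ℝ) * ((Finset.univ.filter fun v => accB v).card : ℝ) ≤
      F.card * (1 / 3 * 2 ^ m) := mul_le_mul_of_nonneg_left h3 hFpos.le
  have h9 : 0 < (F.card : ℝ) * 2 ^ m := mul_pos hFpos hpos
  nlinarith

/-! ### Machines of both kinds -/

/-- the machine accepts -/
def Acc (q : Bool × Alg × Polynomial ℕ) (B : Oracle) (n : ℕ) : Prop :=
  if q.1 = true then AccS q.2.1 q.2.2 B n else AccM q.2.1 q.2.2 B n

/-- the machine does not reject -/
def Acw (q : Bool × Alg × Polynomial ℕ) (B : Oracle) (n : ℕ) : Prop :=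
  if q.1 = true then AccS q.2.1 q.2.2 B n else AccW q.2.1 q.2.2 B n

/-- the parameters are fine for the machine, with the slack `k` -/
def Fit (α : ℕ → ℕ) (q : Bool × Alg × Polynomial ℕ) (k n : ℕ) : Prop :=
  FineAt α q.2.1 q.2.2 n ∧ 3 * (q.2.2.eval n + 1 + k) ≤ 2 ^ n

theorem ev_fit {α : ℕ → ℕ} (hα : Monotone α) (hα' : Tendsto α atTop atTop)
    (q : Bool × Alg × Polynomial ℕ) (k : ℕ) : ∀ᶠ n : ℕ in atTop, Fit α q k n := by
  have h2 := ev_fine hα hα' q.2.1 (q.2.2 + Polynomial.C k)
  filter_upwards [ev_fine hα hα' q.2.1 q.2.2, h2] with n h3 h4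
  refine ⟨h3, ?_⟩
  have h5 := h4.adv
  rw [Polynomial.eval_add, Polynomial.eval_C] at h5
  omega

theorem dense (hc : Cp g S (bt α) Φ) (E₀ A : Oracle) {q : Bool × Alg × Polynomial ℕ}
    {n k : ℕ} (hfit : Fit α q k n) (G : Finset (Blk n → Blk n)) (hG : G.Nonempty)
    (hGc : Fintype.card (Blk n → Blk n) ≤ 2 ^ k * G.card)
    (h : ∀ f ∈ G, Acc q (oracle Φ E₀ (win n (fun ρ => some (f ρ)) A)) n) :
    ∃ f : Blk n → Option (Blk n), Few n (win n f A) ∧ Acw q (oracle Φ E₀ (win n f A)) n := by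
  obtain ⟨b, M, p⟩ := q
  cases b with
  | true =>
    obtain ⟨f, hf1, hf2⟩ := dense_sigma hc E₀ A hfit.1 hfit.2 G hG hGc (fun f hf => by
      have := h f hf
      unfold Acc at this
      rwa [if_pos rfl] at this)
    exact ⟨f, hf1, by unfold Acw; rwa [if_pos rfl]⟩
  | false =>
    obtain ⟨f, hf1, hf2⟩ := dense_ma hc E₀ A hfit.1 hfit.2 G hG hGc (fun f hf => by
      have := h f hf
      unfold Acc at this
      rwa [if_neg (by simp)] at this)
    exact ⟨f, hf1, by unfold Acw; rwa [if_neg (by simp)]⟩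

/-- **The stage.** -/
theorem fool (hc : Cp g S (bt α) Φ) (E₀ A : Oracle) (a : ℕ → Bool × Alg × Polynomial ℕ)
    {n k : ℕ} (J : Finset ℕ) (hJ : J.card ≤ 2 ^ k) (hfit : ∀ j ∈ J, Fit α (a j) k n) :
    (∃ f : Blk n → Blk n, ∀ j ∈ J,
      ¬ Acc (a j) (oracle Φ E₀ (win n (fun ρ => some (f ρ)) A)) n) ∨
    ∃ j ∈ J, ∃ f : Blk n → Option (Blk n), Few n (win n f A) ∧
      Acw (a j) (oracle Φ E₀ (win n f A)) n := by
  classical
  by_contra hcon
  rw [not_or] at hcon
  obtain ⟨h1, h2⟩ := hcon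
  push Not at h1
  choose u hu1 hu2 using h1
  obtain ⟨j, hj, hne, hcard⟩ := pigeon2 (Finset.univ : Finset (Blk n → Blk n))
    ⟨fun _ => fun _ => false, Finset.mem_univ _⟩ u J (fun f _ => hu1 f)
  apply h2
  obtain ⟨f, hf1, hf2⟩ := dense hc E₀ A (hfit j hj) _ hne (by
    rw [Finset.card_univ] at hcard
    exact hcard.trans (Nat.mul_le_mul_right _ hJ)) (fun f hf => by
      have h3 := (Finset.mem_filter.1 hf).2
      have h4 := hu2 f
      rwa [h3] at h4)
  exact ⟨j, hj, f, hf1, hf2⟩

end Pool.Agent.J6H20.IA
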