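import Pool.Agent.J6H20.IA.Stage
import Pool.Agent.J6H20.IM.Defs

/-!
# A set in `AM` which is immune for `Σ₂` and for `MA`
-/

set_option autoImplicit false

namespace Pool.Agent.J6H20.IA

open Filter Pool.Agent.NPC Pool.Agent.H628R3.RO Pool.Agent.J6H54.RO Pool.Agent.J6H49.OP
open Pool.Agent.J6H49.AM
open Pool.Agent.TH678.GC (join)
open Pool.Agent.TH678.RS (bt)
open Pool.Agent.Y626.WX (Cp exists_cp)
open Pool.Agent.J6H49.PHC (oracle)
open Pool.Agent.J6H20.IM (Immune)

/-- The strings of ones. -/
def ones : Set (List Bool) := {x | ∃ n : ℕ, x = List.replicate n true}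

theorem mem_ones {x : List Bool} : x ∈ ones ↔ x = List.replicate x.length true := by
  constructor
  · rintro ⟨n, rfl⟩
    rw [List.length_replicate]
  · intro h
    exact ⟨_, h⟩

theorem isAM_inter {B : Oracle} {L : Set (List Bool)} (h : IsAM B L) : IsAM B (L ∩ ones) := by
  obtain ⟨V, p, hV, hx⟩ := h
  have hp1 : Poly (fun z : List Bool => (unpair z).1) := Poly.fst poly_unpair
  have h1 : IsFP B (fun z => if (unpair z).1 = List.replicate (unpair z).1.length true then V z
      else []) := by
    have h2 := IsFP.pair (IsFP.of_poly (A := B) Poly.id) hV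
    have h3 : Poly (fun u : List Bool => if (unpair (unpair u).1).1 =
        List.replicate (unpair (unpair u).1).1.length true then (unpair u).2 else []) := by
      have hu1 : Poly (fun u : List Bool => (unpair (unpair u).1).1) := hp1.comp hp1
      exact Poly.ite (Poly.decide_eq hu1 (p_replicate (UPoly.length hu1) true))
        (Poly.snd poly_unpair) (NPC.Poly.const [])
    have h5 := IsFP.comp (IsFP.of_poly (A := B) h3) h2
    simpa only [unpair_pairBits] using h5
  refine ⟨_, p, h1, fun x => ?_⟩
  simp only [unpair_pairBits]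
  by_cases ht : x = List.replicate x.length true
  · have e : x ∈ L ∩ ones ↔ x ∈ L := ⟨fun h => h.1, fun h => ⟨h, mem_ones.2 ht⟩⟩
    rw [e]
    simp only [← ht, if_true]
    exact hx x
  · have e : ¬ x ∈ L ∩ ones := fun h => ht (mem_ones.1 h.2)
    refine ⟨fun h => absurd h e, fun _ => ?_⟩
    simp only [if_neg ht]
    have h3 : (pr (p.eval x.length) fun r => ∃ y : List Bool, y.length ≤ p.eval x.length ∧
        ([] : List Bool) = [true]) = 0 := by
      unfold pr
      simp
    rw [h3]
    norm_num

theorem rep_inj {m n : ℕ} (h : List.replicate m true = List.replicate n true) : m = n := by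
  have := congrArg List.length h
  rwa [List.length_replicate, List.length_replicate] at this

/-- **The main theorem.** -/
theorem main (α : ℕ → ℕ) (hα : Monotone α) (hα' : Tendsto α atTop atTop) (C : Oracle) :
    ∃ O : Oracle, NearlyCollapsed α O ∧ Contains O C ∧
      ∃ L : Set (List Bool), L ⊆ ones ∧ IsAM O L ∧ Immune (IsSigma2 O) L ∧
        Immune (IsMA O) L := by
  obtain ⟨g, hg⟩ := Pool.Agent.H620R2.Gauge.CC.exists_enum
  obtain ⟨S, Φ, hc⟩ := exists_cp g (bt (slow2 α))
  obtain ⟨a, ha⟩ := exists_surjective_nat (Bool × Alg × Polynomial ℕ)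
  obtain ⟨A, hA1, hA2, hA3⟩ := exists_limit2 (slow2_mono hα) (slow2_tendsto hα') hc C a
  have hmem : ∀ n, List.replicate n true ∈ LL A ∩ ones ↔ Full n A := by
    intro n
    constructor
    · intro h
      have h1 : Full (List.replicate n true).length A := h.1
      rwa [List.length_replicate] at h1
    · intro h
      refine ⟨?_, ⟨n, rfl⟩⟩
      show Full (List.replicate n true).length A
      rwa [List.length_replicate]
  have hinf : (LL A ∩ ones).Infinite := by
    have h1 : {n : ℕ | Full n A}.Infinite :=
      Set.infinite_of_forall_exists_gt fun b => by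
        obtain ⟨n, h1, h2⟩ := hA2 b
        exact ⟨n, h2, h1⟩
    intro hf
    refine h1 ((hf.preimage (f := fun n => List.replicate n true)
      fun i _ j _ hij => rep_inj hij).subset fun n hn => ?_)
    exact (hmem n).2 hn
  -- the general argument
  have hgen : ∀ (T : Set (List Bool)) (q : Bool × Alg × Polynomial ℕ), T ⊆ LL A ∩ ones →
      (∀ n, Acw q (oracle Φ C A) n → List.replicate n true ∈ T) →
      (∀ n, List.replicate n true ∈ T → Acc q (oracle Φ C A) n) → T.Finite := by
    intro T q hT h1 h2
    obtain ⟨j, rfl⟩ := ha q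
    rcases hA3 j with ⟨n, h3, h4⟩ | ⟨n₀, h3⟩
    · exact absurd ((hmem n).1 (hT (h1 n h4))) h3
    · refine ((Set.finite_le_nat n₀).image fun n => List.replicate n true).subset ?_
      intro x hx
      obtain ⟨n, rfl⟩ := (hT hx).2
      refine ⟨n, ?_, rfl⟩
      by_contra hn
      exact h3 n (not_le.1 hn) ((hmem n).1 (hT hx)) (h2 n hx)
  refine ⟨oracle Φ C A, nearly hg hα hc (join A C), ⟨[false, true], fun x => rfl⟩,
    LL A ∩ ones, Set.inter_subset_right, isAM_inter (isAM_LL C hA1), ⟨hinf, ?_⟩, ⟨hinf, ?_⟩⟩
  · rintro T hT ⟨V, p, ⟨M, hM⟩, hx⟩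
    have hS : ∀ n, List.replicate n true ∈ T ↔ AccS M p (oracle Φ C A) n := by
      intro n
      rw [hx]
      unfold AccS
      simp only [hM, Option.some.injEq, List.length_replicate]
    refine hgen T (true, M, p) hT (fun n h => (hS n).2 ?_) fun n h => ?_
    · unfold Acw at h
      rwa [if_pos rfl] at h
    · unfold Acc
      rw [if_pos rfl]
      exact (hS n).1 h
  · rintro T hT ⟨V, p, ⟨M, hM⟩, hx⟩
    refine hgen T (false, M, p) hT (fun n h => ?_) fun n h => ?_
    · unfold Acw at h
      rw [if_neg (by simp)] at h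
      obtain ⟨y, h1, h2⟩ := h
      by_contra hcon
      have h3 := (hx (List.replicate n true)).2 hcon y (by rwa [List.length_replicate])
      simp only [hM, Option.some.injEq] at h2
      rw [List.length_replicate] at h3
      linarith
    · unfold Acc
      rw [if_neg (by simp)]
      obtain ⟨y, h1, h2⟩ := (hx (List.replicate n true)).1 h
      rw [List.length_replicate] at h1 h2
      refine ⟨y, h1, ?_⟩
      simp only [hM, Option.some.injEq]
      exact h2

end Pool.Agent.J6H20.IA
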