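import Pool.Agent.J6H20.IA.Fool
import Pool.Agent.J6H49.AM.Main

/-!
# The finite extension argument with deaths
-/

set_option autoImplicit false

namespace Pool.Agent.J6H20.IA

open Filter Pool.Agent.NPC Pool.Agent.H628R3.RO Pool.Agent.J6H54.RO Pool.Agent.J6H49.OP
open Pool.Agent.J6H49.AM
open Pool.Agent.TH678.RS (bt)
open Pool.Agent.Y626.WX (Cp)
open Pool.Agent.J6H49.PHC (oracle)

/-- the radius of locality -/
noncomputable def rad (q : Bool × Alg × Polynomial ℕ) (n : ℕ) : ℕ :=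
  2 * n + (qb q.2.1).eval (inpL q.2.2 n)

variable {α : ℕ → ℕ} {g : ℕ → Pool.Agent.H620R2.Gauge.SAlg × Polynomial ℕ}
  {S : ℕ → Polynomial ℕ} {Φ : Oracle → Oracle}

theorem out_eq (hc : Cp g S (bt α) Φ) (E₀ : Oracle) {M : Alg} {p : Polynomial ℕ} {n : ℕ}
    {A A' : Oracle} (h : ∀ x : List Bool, x.length ≤ 2 * n + (qb M).eval (inpL p n) → A x = A' x)
    {z : List Bool} (hz : z.length ≤ inpL p n) :
    M.out (oracle Φ E₀ A) z = M.out (oracle Φ E₀ A') z := by
  refine out_loc hc M (ℓ := 2 * n + (qb M).eval (inpL p n)) (fun _ _ => rfl) h ?_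
  have := eval_mono (qb M) hz
  omega

theorem accS_loc (hc : Cp g S (bt α) Φ) (E₀ : Oracle) {M : Alg} {p : Polynomial ℕ} {n : ℕ}
    {A A' : Oracle} (h : ∀ x : List Bool, x.length ≤ 2 * n + (qb M).eval (inpL p n) → A x = A' x) :
    AccS M p (oracle Φ E₀ A) n ↔ AccS M p (oracle Φ E₀ A') n := by
  refine exists_congr fun u => and_congr_right fun hu => forall_congr' fun w =>
    forall_congr' fun hw => ?_
  rw [out_eq hc E₀ h (length_inp hu hw)]

theorem pr_loc (hc : Cp g S (bt α) Φ) (E₀ : Oracle) {M : Alg} {p : Polynomial ℕ} {n : ℕ}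
    {A A' : Oracle} (h : ∀ x : List Bool, x.length ≤ 2 * n + (qb M).eval (inpL p n) → A x = A' x)
    {y : List Bool} (hy : y.length ≤ p.eval n) :
    (pr (p.eval n) fun r => M.out (oracle Φ E₀ A) (pairBits (List.replicate n true)
      (pairBits y r)) = some [true]) =
    pr (p.eval n) fun r => M.out (oracle Φ E₀ A') (pairBits (List.replicate n true)
      (pairBits y r)) = some [true] := by
  refine pr_congr fun v => ?_
  rw [out_eq hc E₀ h (length_inp hy (by rw [List.length_ofFn]))]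

theorem accM_loc (hc : Cp g S (bt α) Φ) (E₀ : Oracle) {M : Alg} {p : Polynomial ℕ} {n : ℕ}
    {A A' : Oracle} (h : ∀ x : List Bool, x.length ≤ 2 * n + (qb M).eval (inpL p n) → A x = A' x) :
    AccM M p (oracle Φ E₀ A) n ↔ AccM M p (oracle Φ E₀ A') n := by
  refine exists_congr fun y => and_congr_right fun hy => ?_
  rw [pr_loc hc E₀ h hy]

theorem accW_loc (hc : Cp g S (bt α) Φ) (E₀ : Oracle) {M : Alg} {p : Polynomial ℕ} {n : ℕ}
    {A A' : Oracle} (h : ∀ x : List Bool, x.length ≤ 2 * n + (qb M).eval (inpL p n) → A x = A' x) :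
    AccW M p (oracle Φ E₀ A) n ↔ AccW M p (oracle Φ E₀ A') n := by
  refine exists_congr fun y => and_congr_right fun hy => ?_
  rw [pr_loc hc E₀ h hy]

theorem acc_loc (hc : Cp g S (bt α) Φ) (E₀ : Oracle) {q : Bool × Alg × Polynomial ℕ} {n : ℕ}
    {A A' : Oracle} (h : ∀ x : List Bool, x.length ≤ rad q n → A x = A' x) :
    Acc q (oracle Φ E₀ A) n ↔ Acc q (oracle Φ E₀ A') n := by
  unfold Acc
  split_ifs
  · exact accS_loc hc E₀ h
  · exact accM_loc hc E₀ h

theorem acw_loc (hc : Cp g S (bt α) Φ) (E₀ : Oracle) {q : Bool × Alg × Polynomial ℕ} {n : ℕ}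
    {A A' : Oracle} (h : ∀ x : List Bool, x.length ≤ rad q n → A x = A' x) :
    Acw q (oracle Φ E₀ A) n ↔ Acw q (oracle Φ E₀ A') n := by
  unfold Acw
  split_ifs
  · exact accS_loc hc E₀ h
  · exact accW_loc hc E₀ h

theorem not_full_of_false {n : ℕ} {A : Oracle}
    (h : ∀ x : List Bool, x.length = 2 * n → A x = false) : ¬ Full n A := by
  intro hf
  obtain ⟨y, hy⟩ := hf fun _ => false
  rw [h _ (length_str2 _ y)] at hy
  simp at hy

/-- the oracle satisfies the promise and is empty beyond the length `ℓ` -/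
def Good (A : Oracle) (ℓ : ℕ) : Prop :=
  (∀ n, Lg n A) ∧ ∀ x : List Bool, ℓ < x.length → A x = false

/-- the machine `q` is dead: it does not reject a string which is not in the language -/
def Kill (Φ : Oracle → Oracle) (E₀ : Oracle) (q : Bool × Alg × Polynomial ℕ) (A : Oracle)
    (ℓ : ℕ) : Prop :=
  ∃ n, rad q n ≤ ℓ ∧ ¬ Full n A ∧ Acw q (oracle Φ E₀ A) n

theorem Kill.mono (hc : Cp g S (bt α) Φ) {E₀ : Oracle} {q : Bool × Alg × Polynomial ℕ}
    {A A' : Oracle} {ℓ ℓ' : ℕ} (h : Kill Φ E₀ q A ℓ)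
    (hA : ∀ x : List Bool, x.length ≤ ℓ → A' x = A x) (hℓ : ℓ ≤ ℓ') : Kill Φ E₀ q A' ℓ' := by
  obtain ⟨n, h1, h2, h3⟩ := h
  refine ⟨n, h1.trans hℓ, ?_, ?_⟩
  · rwa [full_congr fun x hx => hA x (by unfold rad at h1; omega)]
  · rwa [acw_loc hc E₀ fun x hx => hA x (hx.trans h1)]

theorem good_win {n ℓ ℓ' : ℕ} {A : Oracle} (h : Good A ℓ) (hn : ℓ < n) (hℓ : 2 * n ≤ ℓ')
    {f : Blk n → Option (Blk n)} (hf : Lg n (win n f A)) : Good (win n f A) ℓ' := by
  refine ⟨fun n' => ?_, fun y hy => ?_⟩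
  · by_cases h' : n' = n
    · rw [h']
      exact hf
    · exact (lg_congr fun y hy => (win_off f A (by omega)).symm).1 (h.1 n')
  · rw [win_off f A (by omega)]
    exact h.2 y (by omega)

theorem not_full_win {n n' ℓ : ℕ} {A : Oracle} (h : Good A ℓ) {f : Blk n → Option (Blk n)}
    (hn' : ℓ < 2 * n') (hne : n' ≠ n) : ¬ Full n' (win n f A) :=
  not_full_of_false fun x hx => by
    rw [win_off f A (by omega)]
    exact h.2 x (by omega)

theorem stage (hα : Monotone α) (hα' : Tendsto α atTop atTop) (hc : Cp g S (bt α) Φ)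
    (E₀ : Oracle) (a : ℕ → Bool × Alg × Polynomial ℕ) (k : ℕ) :
    ∀ (d : ℕ) (A : Oracle) (ℓ : ℕ) (K : Finset ℕ), Good A ℓ →
      (∀ j ∈ K, Kill Φ E₀ (a j) A ℓ) → (Finset.range k \ K).card ≤ d →
      ∃ (A' : Oracle) (ℓ' : ℕ) (K' : Finset ℕ), ℓ < ℓ' ∧
        (∀ x : List Bool, x.length ≤ ℓ → A' x = A x) ∧ Good A' ℓ' ∧ K ⊆ K' ∧
        (∀ j ∈ K', Kill Φ E₀ (a j) A' ℓ') ∧ ∃ m, ℓ < m ∧ 2 * m ≤ ℓ' ∧ Full m A' ∧
          (∀ n, ℓ < 2 * n → Full n A' → n = m) ∧
          ∀ j < k, j ∉ K' → rad (a j) m ≤ ℓ' ∧ ¬ Acc (a j) (oracle Φ E₀ A') m := by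
  classical
  intro d
  induction d with
  | zero =>
    intro A ℓ K hA hK hd
    obtain ⟨n, hn⟩ : ∃ n, ℓ < n := ⟨ℓ + 1, by omega⟩
    have hJ : Finset.range k \ K = ∅ := Finset.card_eq_zero.1 (by omega)
    refine ⟨win n (fun ρ => some (id ρ)) A, 2 * n, K, by omega, fun x hx => ?_,
      good_win hA hn le_rfl (Or.inl (full_win _ A)), subset_rfl, fun j hj => ?_, n, hn, le_rfl,
      full_win _ A, fun n' h1 h2 => ?_, fun j hj hjK => ?_⟩
    · exact win_off _ A (by omega)
    · exact (hK j hj).mono hc (fun x hx => win_off _ A (by omega)) (by omega)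
    · by_contra hne
      exact not_full_win hA h1 hne h2
    · exfalso
      have : j ∈ Finset.range k \ K := Finset.mem_sdiff.2 ⟨Finset.mem_range.2 hj, hjK⟩
      rw [hJ] at this
      simp at this
  | succ d ih =>
    intro A ℓ K hA hK hd
    set J := Finset.range k \ K with hJ
    have hev : ∀ᶠ n in atTop, ∀ j ∈ J, Fit α (a j) k n :=
      (Filter.eventually_all_finset J).2 fun j _ => ev_fit hα hα' (a j) k
    obtain ⟨n, hfit, hn⟩ := (hev.and (eventually_gt_atTop ℓ)).exists
    have hJk : J.card ≤ 2 ^ k := by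
      refine (Finset.card_le_card Finset.sdiff_subset).trans ?_
      rw [Finset.card_range]
      exact Nat.lt_two_pow_self.le
    rcases fool hc E₀ A a J hJk hfit with ⟨f, hf⟩ | ⟨j₀, hj₀, f, hf1, hf2⟩
    · set ℓ' := 2 * n + ∑ j ∈ Finset.range k, rad (a j) n with hℓ'
      refine ⟨win n (fun ρ => some (f ρ)) A, ℓ', K, by omega, fun x hx => ?_,
        good_win hA hn (by omega) (Or.inl (full_win _ A)), subset_rfl, fun j hj => ?_, n, hn,
        by omega, full_win _ A, fun n' h1 h2 => ?_, fun j hj hjK => ⟨?_, ?_⟩⟩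
      · exact win_off _ A (by omega)
      · exact (hK j hj).mono hc (fun x hx => win_off _ A (by omega)) (by omega)
      · by_contra hne
        exact not_full_win hA h1 hne h2
      · have h1 : rad (a j) n ≤ ∑ j ∈ Finset.range k, rad (a j) n :=
          Finset.single_le_sum (f := fun j => rad (a j) n) (fun _ _ => Nat.zero_le _)
            (Finset.mem_range.2 hj)
        omega
      · exact hf j (Finset.mem_sdiff.2 ⟨Finset.mem_range.2 hj, hjK⟩)
    · have hj₀' := Finset.mem_sdiff.1 hj₀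
      have hrad : 2 * n ≤ rad (a j₀) n := Nat.le_add_right _ _
      obtain ⟨A', ℓ', K', h1, h2, h3, h4, h5, m, h6, h6', h7, h8, h9⟩ :=
        ih (win n f A) (rad (a j₀) n) (insert j₀ K) (good_win hA hn hrad (Or.inr hf1))
          (fun j hj => by
            rcases Finset.mem_insert.1 hj with rfl | hj
            · exact ⟨n, le_rfl, not_full_of_few hf1, hf2⟩
            · exact (hK j hj).mono hc (fun x hx => win_off _ A (by omega)) (by omega)) (by
            have e : Finset.range k \ insert j₀ K = J.erase j₀ := by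
              ext i
              simp only [hJ, Finset.mem_sdiff, Finset.mem_insert, Finset.mem_erase,
                Finset.mem_range]
              tauto
            rw [e, Finset.card_erase_of_mem hj₀]
            omega)
      refine ⟨A', ℓ', K', by omega, fun x hx => ?_, h3,
        (Finset.subset_insert _ _).trans h4, h5, m, by omega, h6', h7, fun n' h10 h11 => ?_, h9⟩
      · rw [h2 x (by omega), win_off _ A (by omega)]
      · by_cases h12 : rad (a j₀) n < 2 * n'
        · exact h8 n' h12 h11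
        · exfalso
          have h13 : Full n' (win n f A) :=
            (full_congr fun x hx => (h2 x (by omega))).1 h11
          by_cases hne : n' = n
          · subst hne
            exact not_full_of_few hf1 h13
          · exact not_full_win hA h10 hne h13

theorem good_empty : Good (fun _ => false) 0 := ⟨lg_empty, fun _ _ => rfl⟩

/-- **The limit.** -/
theorem exists_limit2 (hα : Monotone α) (hα' : Tendsto α atTop atTop) (hc : Cp g S (bt α) Φ)
    (E₀ : Oracle) (a : ℕ → Bool × Alg × Polynomial ℕ) :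
    ∃ A : Oracle, (∀ n, Lg n A) ∧ (∀ b, ∃ n, b < n ∧ Full n A) ∧
      ∀ j, (∃ n, ¬ Full n A ∧ Acw (a j) (oracle Φ E₀ A) n) ∨
        ∃ n₀, ∀ n, n₀ < n → Full n A → ¬ Acc (a j) (oracle Φ E₀ A) n := by
  classical
  let St : Type := {s : Oracle × ℕ × Finset ℕ // Good s.1 s.2.1 ∧
    ∀ j ∈ s.2.2, Kill Φ E₀ (a j) s.1 s.2.1}
  have hstep : ∀ (k : ℕ) (s : St), ∃ s' : St, s.1.2.1 < s'.1.2.1 ∧
      (∀ x : List Bool, x.length ≤ s.1.2.1 → s'.1.1 x = s.1.1 x) ∧ s.1.2.2 ⊆ s'.1.2.2 ∧
      ∃ m, s.1.2.1 < m ∧ 2 * m ≤ s'.1.2.1 ∧ Full m s'.1.1 ∧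
        (∀ n, s.1.2.1 < 2 * n → Full n s'.1.1 → n = m) ∧
        ∀ j < k, j ∉ s'.1.2.2 → rad (a j) m ≤ s'.1.2.1 ∧
          ¬ Acc (a j) (oracle Φ E₀ s'.1.1) m := by
    intro k s
    obtain ⟨A', ℓ', K', h1, h2, h3, h4, h5, h6⟩ :=
      stage hα hα' hc E₀ a k _ s.1.1 s.1.2.1 s.1.2.2 s.2.1 s.2.2 le_rfl
    exact ⟨⟨(A', ℓ', K'), h3, h5⟩, h1, h2, h4, h6⟩
  choose nx hnx1 hnx2 hnx3 mm hm1 hm2 hm3 hm4 hm5 using hstep
  let s : ℕ → St := fun i => Nat.rec ⟨(fun _ => false, 0, ∅), good_empty, fun _ h => by simp at h⟩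
    (fun i s => nx i s) i
  have hs : ∀ i, s (i + 1) = nx i (s i) := fun i => rfl
  have hl : ∀ i, i ≤ (s i).1.2.1 := by
    intro i
    induction i with
    | zero => exact Nat.zero_le _
    | succ i ih =>
      have := hnx1 i (s i)
      rw [hs]
      omega
  have hmono : ∀ i j, i ≤ j → (s i).1.2.1 ≤ (s j).1.2.1 := by
    intro i j hij
    induction j, hij using Nat.le_induction with
    | base => exact le_rfl
    | succ j hj ih =>
      have := hnx1 j (s j)
      rw [hs]
      omega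
  have hag : ∀ i j, i ≤ j → ∀ x : List Bool, x.length ≤ (s i).1.2.1 →
      (s j).1.1 x = (s i).1.1 x := by
    intro i j hij x hx
    induction j, hij using Nat.le_induction with
    | base => rfl
    | succ j hj ih =>
      rw [hs, hnx2 j (s j) x (hx.trans (hmono i j hj)), ih]
  have key : ∀ i (x : List Bool), x.length ≤ (s i).1.2.1 → (s x.length).1.1 x = (s i).1.1 x := by
    intro i x hx
    rcases le_total x.length i with h | h
    · exact (hag _ _ h x (hl _)).symm
    · exact hag _ _ h x hx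
  set A : Oracle := fun x => (s x.length).1.1 x with hAdef
  have keyA : ∀ i (x : List Bool), x.length ≤ (s i).1.2.1 → A x = (s i).1.1 x := key
  refine ⟨A, fun n => ?_, fun b => ?_, fun j => ?_⟩
  · exact (lg_congr fun x hx => (keyA (2 * n) x (by
      have := hl (2 * n)
      omega)).symm).1 ((s (2 * n)).2.1.1 n)
  · refine ⟨mm b (s b), (hl b).trans_lt (hm1 b (s b)), ?_⟩
    refine (full_congr fun x hx => ?_).1 (hm3 b (s b))
    have h1 := hm2 b (s b)
    rw [← hs] at h1 ⊢
    exact (keyA (b + 1) x (by omega)).symm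
  · by_cases hj : ∃ i, j ∈ (s i).1.2.2
    · left
      obtain ⟨i, hi⟩ := hj
      obtain ⟨n, -, h2, h3⟩ := ((s i).2.2 j hi).mono hc (A' := A) (fun x hx => keyA i x hx) le_rfl
      exact ⟨n, h2, h3⟩
    · right
      push Not at hj
      refine ⟨(s (j + 1)).1.2.1, fun n hn hfull hacc => ?_⟩
      -- the stage of `n`
      have hex : ∃ i, 2 * n ≤ (s (i + 1)).1.2.1 := ⟨2 * n, (by
        have := hl (2 * n + 1)
        omega)⟩
      obtain ⟨i, h1, h2⟩ : ∃ i, 2 * n ≤ (s (i + 1)).1.2.1 ∧ (s i).1.2.1 < 2 * n := by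
        refine ⟨Nat.find hex, Nat.find_spec hex, ?_⟩
        rcases Nat.eq_zero_or_pos (Nat.find hex) with h0 | h0
        · rw [h0]
          have : (s 0).1.2.1 = 0 := rfl
          omega
        · have h3 := Nat.find_min hex (m := Nat.find hex - 1) (by omega)
          rw [Nat.sub_add_cancel h0] at h3
          omega
      have hji : j < i := by
        by_contra hcon
        have := hmono (i + 1) (j + 1) (by omega)
        omega
      have hf : Full n (s (i + 1)).1.1 :=
        (full_congr fun x hx => keyA (i + 1) x (by omega)).1 hfull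
      have hnm : n = mm i (s i) := hm4 i (s i) n h2 hf
      obtain ⟨h3, h4⟩ := hm5 i (s i) j hji (hj (i + 1))
      rw [← hnm, ← hs] at h3 h4
      exact h4 ((acc_loc hc E₀ fun x hx => keyA (i + 1) x (hx.trans h3)).1 hacc)

end Pool.Agent.J6H20.IA
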